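import Mathlib

set_option autoImplicit false

/-!
# A Borel linear-modulo-`M` map whose image plus `M` is not a Banach space
-/

namespace Pool.Agent.Results.MP_25e654_an.RibeSum

open Filter Topology Set

/-- The data of the question: a Banach space `M` included in `Y` by the injective linear map `j`
with `‖j m‖ ≤ ‖m‖`, and a Borel map `φ : X → Y` that is linear modulo the image of `j`. -/
structure LinearModulo {X Y M : Type} [NormedAddCommGroup X] [NormedSpace ℝ X]
    [NormedAddCommGroup Y] [NormedSpace ℝ Y] [NormedAddCommGroup M] [NormedSpace ℝ M]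
    (j : M →ₗ[ℝ] Y) (φ : X → Y) : Prop where
  injective : Function.Injective j
  norm_le : ∀ m, ‖j m‖ ≤ ‖m‖
  borel : @Measurable X Y (borel X) (borel Y) φ
  linear : ∀ (a b : ℝ) (x y : X),
    φ (a • x + b • y) - (a • φ x + b • φ y) ∈ LinearMap.range j

/-- The set `V = φ(X) + M`. -/
def imagePlus {X Y M : Type} [NormedAddCommGroup Y] [NormedSpace ℝ Y] [NormedAddCommGroup M]
    [NormedSpace ℝ M] (j : M →ₗ[ℝ] Y) (φ : X → Y) : Set Y := {y | ∃ x m, y = φ x + j m}

/-- The linear subspace `V` of `Y` carries a complete norm whose topology is finer than the one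
inherited from `Y`: it is the image of a Banach space under a continuous linear injection. -/
def HasFinerBanachNorm {Y : Type} [NormedAddCommGroup Y] [NormedSpace ℝ Y] (V : Set Y) : Prop :=
  ∃ (W : Type) (_ : NormedAddCommGroup W) (_ : NormedSpace ℝ W) (_ : CompleteSpace W)
    (T : W →L[ℝ] Y), Function.Injective T ∧ Set.range T = V

/-! ### The closed graph lemma -/

theorem lift_bound {Z W Y : Type*} [NormedAddCommGroup Z] [NormedSpace ℝ Z] [CompleteSpace Z]
    [NormedAddCommGroup W] [NormedSpace ℝ W] [CompleteSpace W] [NormedAddCommGroup Y]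
    [NormedSpace ℝ Y] (T : W →L[ℝ] Y) (hT : Function.Injective T) (A : Z →L[ℝ] Y)
    (h : ∀ z, A z ∈ Set.range T) : ∃ K : ℝ, 0 ≤ K ∧ ∀ z, ∃ w, T w = A z ∧ ‖w‖ ≤ K * ‖z‖ := by
  choose g hg using h
  let G : Z →ₗ[ℝ] W :=
    { toFun := g
      map_add' := fun x y => hT (by rw [map_add, hg, hg, hg, map_add])
      map_smul' := fun c x => hT (by rw [map_smul, hg, hg, map_smul]; rfl) }
  have hcl : IsClosed (G.graph : Set (Z × W)) := by
    have : (G.graph : Set (Z × W)) = {q | T q.2 = A q.1} := by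
      ext q
      simp only [SetLike.mem_coe, LinearMap.mem_graph_iff, Set.mem_ofPred_eq]
      constructor
      · intro hq
        rw [hq]
        exact hg q.1
      · intro hq
        exact hT (by rw [hq]; exact (hg q.1).symm)
    rw [this]
    exact isClosed_eq (T.continuous.comp continuous_snd) (A.continuous.comp continuous_fst)
  let G' := ContinuousLinearMap.ofIsClosedGraph hcl
  refine ⟨‖G'‖, norm_nonneg _, fun z => ⟨g z, hg z, ?_⟩⟩
  exact G'.le_opNorm z

/-! ### The Ribe function -/

/-- `s log |s|`. -/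
noncomputable def θ (s : ℝ) : ℝ := s * Real.log s

theorem θ_zero : θ 0 = 0 := by simp [θ]

theorem θ_one : θ 1 = 0 := by simp [θ]

theorem θ_mul {a s : ℝ} (ha : a ≠ 0) : θ (a * s) = a * θ s + s * θ a := by
  rcases eq_or_ne s 0 with rfl | hs
  · simp [θ]
  · simp only [θ]
    rw [Real.log_mul ha hs]
    ring

theorem θ_abs {s : ℝ} (hs : |s| ≤ 1) : |θ s| ≤ 1 := by
  rcases eq_or_ne s 0 with rfl | h0
  · simp [θ]
  · have h := Real.abs_log_mul_self_lt |s| (abs_pos.2 h0) hs
    rw [Real.log_abs, abs_mul, abs_abs] at h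
    rw [θ, abs_mul, mul_comm]
    exact h.le

theorem continuous_θ : Continuous θ := Real.continuous_mul_log

theorem θ_add (s t : ℝ) : |θ (s + t) - θ s - θ t| ≤ 3 * (|s| + |t|) := by
  rcases eq_or_ne (|s| + |t|) 0 with h | h
  · have hs : s = 0 := by
      have := abs_nonneg s
      have := abs_nonneg t
      exact abs_eq_zero.1 (by linarith)
    have ht : t = 0 := by
      have := abs_nonneg s
      have := abs_nonneg t
      exact abs_eq_zero.1 (by linarith)
    simp [hs, ht, θ]
  · set l := |s| + |t| with hl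
    have hl0 : 0 < l := lt_of_le_of_ne (by positivity) (Ne.symm h)
    have e1 : s = l * (s / l) := by field_simp
    have e2 : t = l * (t / l) := by field_simp
    have e3 : s + t = l * ((s + t) / l) := by field_simp
    have h1 : θ (s + t) - θ s - θ t = l * (θ ((s + t) / l) - θ (s / l) - θ (t / l)) := by
      conv_lhs => rw [e3, θ_mul h]
      conv_lhs => rw [e1, θ_mul h]
      conv_lhs =>
        rw [show θ t = θ (l * (t / l)) by rw [← e2], θ_mul h]
      have : (l * (s / l) + t) / l = s / l + t / l := by field_simp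
      rw [this]
      have : (s + t) / l = s / l + t / l := add_div _ _ _
      rw [this]
      ring
    have hb : ∀ u : ℝ, |u| ≤ l → |θ (u / l)| ≤ 1 := by
      intro u hu
      refine θ_abs ?_
      rw [abs_div, abs_of_pos hl0]
      exact (div_le_one hl0).2 hu
    have b1 := hb (s + t) (abs_add_le s t)
    have b2 := hb s (by rw [hl]; linarith [abs_nonneg t])
    have b3 := hb t (by rw [hl]; linarith [abs_nonneg s])
    rw [h1, abs_mul, abs_of_pos hl0, mul_comm]
    refine mul_le_mul_of_nonneg_right ?_ hl0.le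
    have c1 := abs_sub (θ ((s + t) / l) - θ (s / l)) (θ (t / l))
    have c2 := abs_sub (θ ((s + t) / l)) (θ (s / l))
    linarith

/-- The space `ℓ_1^{n+1}`. -/
abbrev E (n : ℕ) : Type := PiLp 1 (fun _ : Fin (n + 1) => ℝ)

theorem norm_E {n : ℕ} (x : E n) : ‖x‖ = ∑ i, |x i| := by
  rw [PiLp.norm_eq_sum (by simp)]
  simp

/-- The Ribe function on `ℓ_1^{n+1}`. -/
noncomputable def F (n : ℕ) (x : E n) : ℝ := ∑ i, θ (x i) - θ (∑ i, x i)

theorem F_smul {n : ℕ} (a : ℝ) (x : E n) : F n (a • x) = a * F n x := by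
  rcases eq_or_ne a 0 with rfl | ha
  · simp [F, θ]
  · simp only [F, PiLp.smul_apply, smul_eq_mul]
    rw [← Finset.mul_sum, θ_mul ha, Finset.sum_congr rfl fun i _ => θ_mul (s := x i) ha,
      Finset.sum_add_distrib, ← Finset.mul_sum, ← Finset.sum_mul]
    ring

theorem sum_abs_le {n : ℕ} (x : E n) : |∑ i, x i| ≤ ‖x‖ := by
  rw [norm_E]
  exact Finset.abs_sum_le_sum_abs _ _

theorem F_add {n : ℕ} (x y : E n) : |F n (x + y) - F n x - F n y| ≤ 6 * (‖x‖ + ‖y‖) := by
  have h1 : F n (x + y) - F n x - F n y = ∑ i, (θ (x i + y i) - θ (x i) - θ (y i)) -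
      (θ (∑ i, x i + ∑ i, y i) - θ (∑ i, x i) - θ (∑ i, y i)) := by
    simp only [F, PiLp.add_apply, Finset.sum_add_distrib, Finset.sum_sub_distrib]
    ring
  rw [h1]
  refine (abs_sub _ _).trans ?_
  have h2 : |∑ i, (θ (x i + y i) - θ (x i) - θ (y i))| ≤ 3 * (‖x‖ + ‖y‖) := by
    refine (Finset.abs_sum_le_sum_abs _ _).trans ?_
    rw [norm_E, norm_E, ← Finset.sum_add_distrib, Finset.mul_sum]
    exact Finset.sum_le_sum fun i _ => θ_add _ _
  have h3 := θ_add (∑ i, x i) (∑ i, y i)
  have h4 := sum_abs_le x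
  have h5 := sum_abs_le y
  linarith

theorem F_bound {n : ℕ} (x : E n) : |F n x| ≤ ((n : ℝ) + 2) * ‖x‖ := by
  rcases eq_or_ne x 0 with rfl | hx
  · simp [F, θ]
  · have hx0 : 0 < ‖x‖ := norm_pos_iff.2 hx
    set y : E n := ‖x‖⁻¹ • x with hy
    have hyn : ‖y‖ = 1 := by
      rw [hy, norm_smul, norm_inv, norm_norm, inv_mul_cancel₀ hx0.ne']
    have hxy : x = ‖x‖ • y := by
      rw [hy, smul_smul, mul_inv_cancel₀ hx0.ne', one_smul]
    have hF : |F n y| ≤ (n : ℝ) + 2 := by
      have h1 : |∑ i, θ (y i)| ≤ (n : ℝ) + 1 := by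
        refine (Finset.abs_sum_le_sum_abs _ _).trans ?_
        have : ∀ i ∈ (Finset.univ : Finset (Fin (n + 1))), |θ (y i)| ≤ 1 := by
          intro i _
          refine θ_abs ?_
          rw [← hyn, norm_E]
          exact Finset.single_le_sum (f := fun i => |y i|) (fun i _ => abs_nonneg _)
            (Finset.mem_univ i)
        refine (Finset.sum_le_sum this).trans ?_
        simp
      have h2 : |θ (∑ i, y i)| ≤ 1 := θ_abs ((sum_abs_le y).trans hyn.le)
      rw [F]
      refine (abs_sub _ _).trans ?_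
      linarith
    conv_lhs => rw [hxy]
    rw [F_smul, abs_mul, abs_of_pos hx0, mul_comm]
    exact mul_le_mul_of_nonneg_right hF hx0.le

theorem continuous_F (n : ℕ) : Continuous (F n) := by
  unfold F
  refine Continuous.sub ?_ ?_
  · exact continuous_finsetSum _ fun i _ => continuous_θ.comp (PiLp.continuous_apply 1 _ i)
  · exact continuous_θ.comp (continuous_finsetSum _ fun i _ => PiLp.continuous_apply 1 _ i)

/-- The unit vectors. -/
noncomputable def e {n : ℕ} (i : Fin (n + 1)) : E n := WithLp.toLp 1 (Pi.single i 1)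

theorem norm_e {n : ℕ} (i : Fin (n + 1)) : ‖e i‖ = 1 := by
  rw [norm_E]
  simp [e, apply_ite abs]

theorem F_e {n : ℕ} (i : Fin (n + 1)) : F n (e i) = 0 := by
  simp only [F, e, PiLp.toLp_apply]
  rw [Finset.sum_eq_single i]
  · rw [Pi.single_eq_same, Finset.sum_pi_single' ]
    simp [θ]
  · intro k _ hk
    rw [Pi.single_eq_of_ne hk, θ_zero]
  · simp

/-- The averages of the unit vectors. -/
noncomputable def u (n : ℕ) : E n := WithLp.toLp 1 (fun _ => ((n : ℝ) + 1)⁻¹)

theorem u_eq (n : ℕ) : u n = ((n : ℝ) + 1)⁻¹ • ∑ i, e i := by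
  ext k
  simp only [u, PiLp.smul_apply, smul_eq_mul]
  have : (∑ i : Fin (n + 1), e i : E n) k = ∑ i, (e i : E n) k := by
    simp
  rw [this]
  simp [e]

theorem norm_u (n : ℕ) : ‖u n‖ = 1 := by
  rw [norm_E]
  have : (0 : ℝ) < (n : ℝ) + 1 := by positivity
  simp only [u, abs_inv, abs_of_pos this, Finset.sum_const, Finset.card_univ, Fintype.card_fin,
    nsmul_eq_mul]
  push_cast
  field_simp

theorem F_u (n : ℕ) : F n (u n) = -Real.log ((n : ℝ) + 1) := by
  have : (0 : ℝ) < (n : ℝ) + 1 := by positivity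
  simp only [F, u, Finset.sum_const, Finset.card_univ, Fintype.card_fin, nsmul_eq_mul]
  push_cast
  rw [mul_inv_cancel₀ this.ne', θ_one, sub_zero, θ, Real.log_inv]
  field_simp

/-! ### The sequence spaces -/

/-- The space `ℓ_1`. -/
abbrev L : Type := lp (fun _ : ℕ => ℝ) 1

/-- The `ℓ_1`-sum of the spaces `ℓ_1^{n+1}`. -/
abbrev X : Type := lp E 1

theorem summable_norm {G : ℕ → Type} [∀ n, NormedAddCommGroup (G n)] (x : lp G 1) :
    Summable fun n => ‖x n‖ := by
  simpa using (lp.memℓp x).summable (by simp)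

theorem norm_lp {G : ℕ → Type} [∀ n, NormedAddCommGroup (G n)] (x : lp G 1) :
    ‖x‖ = ∑' n, ‖x n‖ := by
  rw [lp.norm_eq_tsum_rpow (by simp)]
  simp

theorem mem_lp {G : ℕ → Type} [∀ n, NormedAddCommGroup (G n)] {f : (n : ℕ) → G n}
    (h : Summable fun n => ‖f n‖) : Memℓp f 1 := by
  refine memℓp_gen ?_
  simpa using h

theorem separable_lp {G : ℕ → Type} [∀ n, NormedAddCommGroup (G n)] [∀ n, NormedSpace ℝ (G n)]
    [∀ n, TopologicalSpace.SeparableSpace (G n)] : TopologicalSpace.SeparableSpace (lp G 1) := by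
  have h1 : TopologicalSpace.IsSeparable (⋃ n, Set.range (lp.single (E := G) 1 n)) :=
    TopologicalSpace.IsSeparable.iUnion fun n =>
      TopologicalSpace.isSeparable_range (lp.isometry_single n).continuous
  have h2 := (h1.span (R := ℝ)).closure
  have h3 : closure (Submodule.span ℝ (⋃ n, Set.range (lp.single (E := G) 1 n)) : Set (lp G 1)) =
      Set.univ := by
    refine Set.eq_univ_of_forall fun x => ?_
    refine mem_closure_of_tendsto (lp.hasSum_single (by simp) x)
      (Eventually.of_forall fun s => ?_)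
    refine Submodule.sum_mem _ fun i _ => Submodule.subset_span ?_
    exact Set.mem_iUnion.2 ⟨i, _, rfl⟩
  rw [h3] at h2
  exact TopologicalSpace.isSeparable_univ_iff.1 h2

/-- The weights. -/
noncomputable def wt (n : ℕ) : ℝ := ((n : ℝ) + 2)⁻¹

theorem wt_pos (n : ℕ) : 0 < wt n := by
  unfold wt
  positivity

theorem wt_le (n : ℕ) : wt n ≤ 1 := by
  unfold wt
  refine inv_le_one_of_one_le₀ ?_
  have : (0 : ℝ) ≤ n := Nat.cast_nonneg n
  linarith

theorem wtF_bound {n : ℕ} (x : E n) : |wt n * F n x| ≤ ‖x‖ := by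
  rw [abs_mul, abs_of_pos (wt_pos n)]
  have h := F_bound x
  have : wt n * (((n : ℝ) + 2) * ‖x‖) = ‖x‖ := by
    unfold wt
    field_simp
  rw [← this]
  exact mul_le_mul_of_nonneg_left h (wt_pos n).le

/-- The second component of `φ`. -/
noncomputable def φ₂ (x : X) : L :=
  ⟨fun n => wt n * F n (x n), mem_lp (Summable.of_nonneg_of_le (fun _ => norm_nonneg _)
    (fun n => wtF_bound (x n)) (summable_norm x))⟩

theorem φ₂_apply (x : X) (n : ℕ) : φ₂ x n = wt n * F n (x n) := rfl

/-- The map `φ`. -/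
noncomputable def φ (x : X) : X × L := (x, φ₂ x)

/-- Multiplication by the weights, on `ℓ_1`. -/
noncomputable def mulWt : L →ₗ[ℝ] L where
  toFun m := ⟨fun n => wt n * m n, mem_lp (Summable.of_nonneg_of_le (fun _ => norm_nonneg _)
    (fun n => by
      rw [norm_mul, Real.norm_of_nonneg (wt_pos n).le]
      exact mul_le_of_le_one_left (norm_nonneg _) (wt_le n)) (summable_norm m))⟩
  map_add' a b := by
    ext n
    simp only [lp.coeFn_add, Pi.add_apply]
    exact mul_add _ _ _
  map_smul' c a := by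
    ext n
    simp only [lp.coeFn_smul, Pi.smul_apply, smul_eq_mul, RingHom.id_apply]
    exact mul_left_comm _ _ _

theorem mulWt_apply (m : L) (n : ℕ) : mulWt m n = wt n * m n := rfl

theorem norm_mulWt (m : L) : ‖mulWt m‖ ≤ ‖m‖ := by
  rw [norm_lp, norm_lp]
  refine (summable_norm (mulWt m)).tsum_le_tsum (fun n => ?_) (summable_norm m)
  rw [mulWt_apply, norm_mul, Real.norm_of_nonneg (wt_pos n).le]
  exact mul_le_of_le_one_left (norm_nonneg _) (wt_le n)

/-- The inclusion of `M = ℓ_1` into `Y = X × ℓ_1`. -/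
noncomputable def j : L →ₗ[ℝ] X × L := (LinearMap.inr ℝ X L).comp mulWt

theorem j_apply (m : L) : j m = (0, mulWt m) := rfl

theorem linear_mod : LinearModulo j φ := by
  refine ⟨?_, ?_, ?_, ?_⟩
  · intro a b hab
    rw [j_apply, j_apply, Prod.mk.injEq] at hab
    ext n
    have := congrArg (fun z : L => z n) hab.2
    simp only [mulWt_apply] at this
    exact mul_left_cancel₀ (wt_pos n).ne' this
  · intro m
    rw [j_apply, Prod.norm_def, norm_zero, max_eq_right (norm_nonneg _)]
    exact norm_mulWt m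
  · let _ : MeasurableSpace X := borel X
    have _ : BorelSpace X := ⟨rfl⟩
    let _ : MeasurableSpace (X × L) := borel (X × L)
    have _ : BorelSpace (X × L) := ⟨rfl⟩
    have hc : ∀ N : ℕ, Continuous fun x : X =>
        ((x, ∑ n ∈ Finset.range N, lp.single 1 n (wt n * F n (x n))) : X × L) := by
      intro N
      refine continuous_id.prodMk (continuous_finsetSum _ fun n _ => ?_)
      refine (lp.isometry_single n).continuous.comp (continuous_const.mul ?_)
      exact (continuous_F n).comp (lp.evalCLM ℝ E 1 n).continuous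
    refine measurable_of_tendsto_metrizable (fun N => (hc N).measurable) ?_
    rw [tendsto_pi_nhds]
    intro x
    refine tendsto_const_nhds.prodMk_nhds ?_
    exact (lp.hasSum_single (by simp) (φ₂ x)).tendsto_sum_nat
  · intro a b x y
    have hsum : Summable fun n => ‖F n (a • x n + b • y n) - a * F n (x n) - b * F n (y n)‖ := by
      refine Summable.of_nonneg_of_le (fun _ => norm_nonneg _) (fun n => ?_)
        ((((summable_norm x).mul_left |a|).add ((summable_norm y).mul_left |b|)).mul_left 6)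
      have := F_add (a • x n) (b • y n)
      rw [F_smul, F_smul, norm_smul, norm_smul] at this
      exact this
    refine ⟨⟨fun n => F n (a • x n + b • y n) - a * F n (x n) - b * F n (y n), mem_lp hsum⟩, ?_⟩
    rw [j_apply]
    refine Prod.ext ?_ ?_
    · simp [φ]
    · ext n
      change wt n * (F n (a • x n + b • y n) - a * F n (x n) - b * F n (y n)) =
        (φ₂ (a • x + b • y) - (a • φ₂ x + b • φ₂ y)) n
      simp only [lp.coeFn_sub, lp.coeFn_add, lp.coeFn_smul, Pi.sub_apply, Pi.add_apply,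
        Pi.smul_apply, φ₂_apply, smul_eq_mul]
      ring

/-! ### Diagonal maps -/

section diag

variable {v : (n : ℕ) → E n} (hv : ∀ n, ‖v n‖ ≤ 1)

include hv in
theorem diag_summable (a : L) : Summable fun n => ‖a n • v n‖ := by
  refine Summable.of_nonneg_of_le (fun _ => norm_nonneg _) (fun n => ?_) (summable_norm a)
  rw [norm_smul]
  exact mul_le_of_le_one_right (norm_nonneg _) (hv n)

/-- The map `a ↦ (a_n v_n)_n`. -/
noncomputable def diag : L →ₗ[ℝ] X where
  toFun a := ⟨fun n => a n • v n, mem_lp (diag_summable hv a)⟩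
  map_add' a b := by
    ext n : 2
    exact add_smul _ _ _
  map_smul' c a := by
    ext n : 2
    exact mul_smul _ _ _

theorem diag_apply (a : L) (n : ℕ) : diag hv a n = a n • v n := rfl

theorem norm_diag (a : L) : ‖diag hv a‖ ≤ ‖a‖ := by
  rw [norm_lp, norm_lp]
  refine (summable_norm (diag hv a)).tsum_le_tsum (fun n => ?_) (summable_norm a)
  rw [diag_apply, norm_smul]
  exact mul_le_of_le_one_right (norm_nonneg _) (hv n)

theorem φ_diag_linear_add (a b : L) : φ (diag hv (a + b)) = φ (diag hv a) + φ (diag hv b) := by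
  refine Prod.ext (map_add _ _ _) ?_
  ext n
  change wt n * F n ((a n + b n) • v n) = wt n * F n (a n • v n) + wt n * F n (b n • v n)
  rw [F_smul, F_smul, F_smul]
  ring

theorem φ_diag_linear_smul (c : ℝ) (a : L) : φ (diag hv (c • a)) = c • φ (diag hv a) := by
  refine Prod.ext (map_smul _ _ _) ?_
  ext n
  change wt n * F n ((c * a n) • v n) = c * (wt n * F n (a n • v n))
  rw [F_smul, F_smul]
  ring

/-- The map `a ↦ φ((a_n v_n)_n)`, which is linear and bounded. -/
noncomputable def B : L →L[ℝ] X × L :=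
  LinearMap.mkContinuous
    { toFun := fun a => φ (diag hv a)
      map_add' := φ_diag_linear_add hv
      map_smul' := φ_diag_linear_smul hv } 1 (by
    intro a
    rw [one_mul]
    change ‖φ (diag hv a)‖ ≤ ‖a‖
    rw [Prod.norm_def]
    refine max_le (norm_diag hv a) ?_
    change ‖φ₂ (diag hv a)‖ ≤ ‖a‖
    refine le_trans ?_ (norm_diag hv a)
    rw [norm_lp, norm_lp]
    exact (summable_norm (φ₂ (diag hv a))).tsum_le_tsum (fun n => wtF_bound _)
      (summable_norm (diag hv a)))

theorem B_apply (a : L) : B hv a = φ (diag hv a) := rfl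

end diag

theorem diag_single {v : (n : ℕ) → E n} (hv : ∀ n, ‖v n‖ ≤ 1) (n : ℕ) :
    diag hv (lp.single 1 n 1) = lp.single 1 n (v n) := by
  ext m : 2
  rw [diag_apply]
  rcases eq_or_ne m n with rfl | h
  · rw [lp.single_apply_self, lp.single_apply_self, one_smul]
  · rw [lp.single_apply_ne _ _ _ h, lp.single_apply_ne _ _ _ h, zero_smul]

theorem φ₂_single (n : ℕ) (v : E n) :
    φ₂ (lp.single 1 n v) = lp.single 1 n (wt n * F n v) := by
  ext m
  rw [φ₂_apply]
  rcases eq_or_ne m n with rfl | h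
  · rw [lp.single_apply_self, lp.single_apply_self]
  · rw [lp.single_apply_ne _ _ _ h, lp.single_apply_ne _ _ _ h]
    simp [F, θ]

section contra

variable {W : Type} [NormedAddCommGroup W] [NormedSpace ℝ W] [CompleteSpace W]
  {T : W →L[ℝ] X × L} (hT : Function.Injective T) (hr : Set.range T = imagePlus j φ)

include hT hr in
/-- Unit vectors in different blocks have uniformly bounded preimages. -/
theorem uniform {v : (n : ℕ) → E n} (hv : ∀ n, ‖v n‖ ≤ 1) : ∃ K : ℝ, 0 ≤ K ∧ ∀ n, ∃ w,
    T w = (lp.single 1 n (v n), lp.single 1 n (wt n * F n (v n))) ∧ ‖w‖ ≤ K := by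
  obtain ⟨K, hK, h⟩ := lift_bound T hT (B hv) (fun a => by
    rw [hr]
    exact ⟨diag hv a, 0, by rw [map_zero, add_zero]; rfl⟩)
  refine ⟨K, hK, fun n => ?_⟩
  obtain ⟨w, hw, hwn⟩ := h (lp.single 1 n 1)
  refine ⟨w, ?_, ?_⟩
  · rw [hw, B_apply, φ, diag_single, φ₂_single]
  · rw [lp.norm_single one_pos, norm_one, mul_one] at hwn
    exact hwn

include hT hr in
theorem exists_small : ∃ K : ℝ, 0 ≤ K ∧ ∀ n, ∃ w,
    T w = (0, lp.single 1 n (wt n * Real.log ((n : ℝ) + 1))) ∧ ‖w‖ ≤ K := by
  -- preimages of the unit vectors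
  have h1 : ∀ (n : ℕ) (i : Fin (n + 1)), ∃ w, T w = (lp.single 1 n (e i), 0) := by
    intro n i
    have : ((lp.single 1 n (e i), 0) : X × L) ∈ Set.range T := by
      rw [hr]
      refine ⟨lp.single 1 n (e i), 0, ?_⟩
      rw [map_zero, add_zero, φ, φ₂_single, F_e, mul_zero, lp.single_zero]
    exact this
  choose p hp using h1
  have h2 : ∀ n, ∃ i : Fin (n + 1), ∀ k, ‖p n k‖ ≤ ‖p n i‖ := fun n =>
    Finite.exists_max fun i => ‖p n i‖
  choose i hi using h2
  obtain ⟨K, hK, hK'⟩ := uniform hT hr (v := fun n => e (i n)) (fun n => (norm_e _).le)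
  have hpK : ∀ n k, ‖p n k‖ ≤ K := by
    intro n k
    refine (hi n k).trans ?_
    obtain ⟨w, hw, hwn⟩ := hK' n
    have : p n (i n) = w := hT (by
      rw [hw, hp, F_e, mul_zero, lp.single_zero])
    rw [this]
    exact hwn
  obtain ⟨K₂, hK₂, hK₂'⟩ := uniform hT hr (v := u) (fun n => (norm_u _).le)
  refine ⟨K + K₂, by positivity, fun n => ?_⟩
  obtain ⟨q, hq, hqn⟩ := hK₂' n
  refine ⟨((n : ℝ) + 1)⁻¹ • ∑ k, p n k - q, ?_, ?_⟩
  · rw [map_sub, map_smul, map_sum, hq, F_u]
    have h3 : ∑ k, T (p n k) = (lp.single 1 n (∑ k, e k), 0) := by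
      rw [Finset.sum_congr rfl fun k _ => hp n k]
      refine Prod.ext ?_ ?_
      · rw [Prod.fst_sum]
        exact (map_sum (lp.lsingle (𝕜 := ℝ) (E := E) 1 n) _ _).symm
      · rw [Prod.snd_sum]
        simp
    rw [h3]
    refine Prod.ext ?_ ?_
    · rw [Prod.fst_sub, Prod.smul_fst, ← lp.single_smul, ← u_eq, sub_self]
    · rw [Prod.snd_sub, Prod.smul_snd, smul_zero, zero_sub, mul_neg, lp.single_neg, neg_neg]
  · refine (norm_sub_le _ _).trans (add_le_add ?_ hqn)
    rw [norm_smul, norm_inv, Real.norm_of_nonneg (by positivity : (0 : ℝ) ≤ (n : ℝ) + 1)]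
    rw [inv_mul_le_iff₀ (by positivity)]
    refine (norm_sum_le _ _).trans ?_
    refine (Finset.sum_le_sum fun k _ => hpK n k).trans ?_
    simp

include hT hr in
theorem contradiction : False := by
  obtain ⟨K, hK, h⟩ := exists_small hT hr
  choose w hw hwn using h
  -- a sparse subsequence
  have hlog : Tendsto (fun n : ℕ => Real.log ((n : ℝ) + 1)) atTop atTop :=
    Real.tendsto_log_atTop.comp
      (tendsto_atTop_add_const_right _ _ tendsto_natCast_atTop_atTop)
  obtain ⟨n, hn, hlarge⟩ := Filter.extraction_forall_of_eventually'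
    (P := fun k m => (2 : ℝ) ^ k * (K + 1) ≤ Real.log ((m : ℝ) + 1)) (fun k =>
      (hlog.eventually_ge_atTop _).exists_forall_of_atTop)
  have hpos : ∀ k, 0 < Real.log ((n k : ℝ) + 1) := fun k =>
    lt_of_lt_of_le (by positivity) (hlarge k)
  let r : ℕ → W := fun k => (Real.log ((n k : ℝ) + 1))⁻¹ • w (n k)
  have hTr : ∀ k, T (r k) = (0, lp.single 1 (n k) (wt (n k))) := by
    intro k
    simp only [r]
    rw [map_smul, hw, Prod.smul_mk, smul_zero, ← lp.single_smul, smul_eq_mul, mul_comm (wt (n k)),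
      inv_mul_cancel_left₀ (hpos k).ne']
  have hrn : ∀ k, ‖r k‖ ≤ (1 / 2 : ℝ) ^ k := by
    intro k
    simp only [r]
    rw [norm_smul, norm_inv, Real.norm_of_nonneg (hpos k).le, inv_mul_le_iff₀ (hpos k)]
    have h1 := hlarge k
    have h2 : (2 : ℝ) ^ k * (1 / 2 : ℝ) ^ k = 1 := by
      rw [← mul_pow]
      norm_num
    have h3 : (0 : ℝ) < (1 / 2 : ℝ) ^ k := by positivity
    calc ‖w (n k)‖ ≤ K := hwn _
      _ ≤ K + 1 := by linarith
      _ = (2 : ℝ) ^ k * (K + 1) * (1 / 2 : ℝ) ^ k := by
        rw [mul_right_comm, h2, one_mul]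
      _ ≤ _ := mul_le_mul_of_nonneg_right h1 h3.le
  have hsum : Summable r := Summable.of_norm_bounded
    (summable_geometric_of_lt_one (by norm_num) (by norm_num)) hrn
  have hT' : HasSum (fun k => T (r k)) (T (∑' k, r k)) := hsum.hasSum.mapL T
  obtain ⟨x, m, hxm⟩ : T (∑' k, r k) ∈ imagePlus j φ := by
    rw [← hr]
    exact ⟨_, rfl⟩
  have h1 : HasSum (fun k => (T (r k)).1) (T (∑' k, r k)).1 :=
    hT'.mapL (ContinuousLinearMap.fst ℝ X L)
  have h1' : (T (∑' k, r k)).1 = 0 := by
    refine h1.unique ?_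
    simp only [hTr]
    exact hasSum_zero
  have hx : x = 0 := by
    rw [hxm] at h1'
    simpa [φ, j_apply] using h1'
  subst hx
  have hφ : φ 0 = 0 := by
    refine Prod.ext rfl ?_
    ext n
    change wt n * F n 0 = 0
    simp [F, θ]
  rw [hφ, zero_add, j_apply] at hxm
  have hm : ∀ l, m (n l) = 1 := by
    intro l
    have h2 : HasSum (fun k => (T (r k)).2 (n l)) ((T (∑' k, r k)).2 (n l)) :=
      (hT'.mapL (ContinuousLinearMap.snd ℝ X L)).mapL
        (lp.evalCLM ℝ (fun _ : ℕ => ℝ) 1 (n l))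
    have h3 : HasSum (fun k => (T (r k)).2 (n l)) (wt (n l)) := by
      have h4 := hasSum_single (f := fun k => (T (r k)).2 (n l)) l (fun k hk => by
        rw [hTr]
        exact lp.single_apply_ne _ _ _ (hn.injective.ne hk).symm)
      rw [hTr] at h4
      simpa using h4
    have h5 := h2.unique h3
    rw [hxm] at h5
    have h6 : wt (n l) * m (n l) = wt (n l) := h5
    exact mul_left_cancel₀ (wt_pos (n l)).ne' (by rw [h6, mul_one])
  have h7 := (summable_norm m).tendsto_atTop_zero.comp hn.tendsto_atTop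
  have h8 : Tendsto (fun _ : ℕ => (1 : ℝ)) atTop (𝓝 0) := by
    refine h7.congr fun l => ?_
    simp [hm]
  exact one_ne_zero (tendsto_nhds_unique tendsto_const_nhds h8)

end contra

/-- There are separable real Banach spaces `X`, `Y`, a separable Banach space `M` included in `Y`
with `‖m‖_Y ≤ ‖m‖_M`, and a Borel map `φ : X → Y` that is linear modulo `M`, such that
`V = φ(X) + M` carries no complete norm finer than the topology inherited from `Y`. -/
theorem result : ∃ (X Y M : Type) (_ : NormedAddCommGroup X) (_ : NormedSpace ℝ X)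
    (_ : NormedAddCommGroup Y) (_ : NormedSpace ℝ Y) (_ : NormedAddCommGroup M)
    (_ : NormedSpace ℝ M) (j : M →ₗ[ℝ] Y) (φ : X → Y),
    (CompleteSpace X ∧ CompleteSpace Y ∧ CompleteSpace M) ∧
    (TopologicalSpace.SeparableSpace X ∧ TopologicalSpace.SeparableSpace Y ∧
      TopologicalSpace.SeparableSpace M) ∧
    LinearModulo j φ ∧ ¬ HasFinerBanachNorm (imagePlus j φ) := by
  have h1 : TopologicalSpace.SeparableSpace RibeSum.X := separable_lp
  have h2 : TopologicalSpace.SeparableSpace L := separable_lp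
  refine ⟨RibeSum.X, RibeSum.X × L, L, inferInstance, inferInstance, inferInstance,
    inferInstance, inferInstance, inferInstance, j, φ, ⟨inferInstance, inferInstance,
    inferInstance⟩, ⟨h1, inferInstance, h2⟩, linear_mod, ?_⟩
  rintro ⟨W, _, _, _, T, hT, hr⟩
  exact contradiction hT hr

end Pool.Agent.Results.MP_25e654_an.RibeSum
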